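import Mathlib

set_option autoImplicit false

open Filter Finset
open scoped Topology Classical

namespace Pool.Agent.Results.MP_8907f9_an.NoResidual

/-- Digit sequences; the digit number `r + 1` has base `d r + 2`. -/
abbrev G (d : ℕ → ℕ) : Type := ∀ r, Fin (d r + 2)

/-- The first `s` digits of `x` are maximal, that is `s < s_x`. -/
def F {d : ℕ → ℕ} (x : G d) (s : ℕ) : Prop := ∀ r < s, x r = Fin.last _

/-- `x + 1` with carries. -/
noncomputable def V {d : ℕ → ℕ} (x : G d) : G d := fun r => if F x r then x r + 1 else x r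

/-- The first `s` digits replaced by zero. -/
def T {d : ℕ → ℕ} (s : ℕ) (x : G d) : G d := fun r => if r < s then 0 else x r

/-- The product of the `p_r` with `r ≤ s_x`. -/
noncomputable def P {d : ℕ → ℕ} (p : ℕ → ℝ) (x : G d) : ℝ :=
  ⨅ n, ∏ r ∈ range n, if F x r then p r else 1

/-- The stochastic adding machine formula. -/
noncomputable def op {d : ℕ → ℕ} (p : ℕ → ℝ) (g : G d → ℂ) (x : G d) : ℂ :=
  P p x * g (V x) +
    ∑' s, if F x s then (((∏ r ∈ range s, p r) * (1 - p s) : ℝ) : ℂ) * g (T s x) else 0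

noncomputable def Q {d : ℕ → ℕ} (p : ℕ → ℝ) (x : G d) (n : ℕ) : ℝ :=
  ∏ r ∈ range n, if F x r then p r else 1

lemma F.mono {d : ℕ → ℕ} {x : G d} {s n : ℕ} (h : F x s) (hn : n ≤ s) : F x n :=
  fun r hr => h r (hr.trans_le hn)

lemma coef {d : ℕ → ℕ} (p : ℕ → ℝ) (x : G d) (s : ℕ) (c : ℂ) :
    (if F x s then (((∏ r ∈ range s, p r) * (1 - p s) : ℝ) : ℂ) * c else 0) =
      ((Q p x s - Q p x (s + 1) : ℝ) : ℂ) * c := by
  unfold Q
  rw [prod_range_succ]
  split_ifs with h
  · rw [prod_congr rfl fun r hr => if_pos (h.mono (mem_range.1 hr).le)]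
    congr 2
    ring
  · simp

lemma tail {d : ℕ → ℕ} {p : ℕ → ℝ} (hp : ∀ r, 0 < p r ∧ p r ≤ 1) (x : G d) (n : ℕ) :
    HasSum (fun s => Q p x (s + n) - Q p x (s + n + 1)) (Q p x n - P p x) := by
  have h0 : ∀ n, 0 ≤ Q p x n := fun n => prod_nonneg fun r _ => by
    split_ifs
    exacts [(hp r).1.le, zero_le_one]
  have h1 : Antitone (Q p x) := antitone_nat_of_succ_le fun n => by
    rw [Q, prod_range_succ]
    refine mul_le_of_le_one_right (h0 n) ?_
    split_ifs
    exacts [(hp n).2, le_rfl]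
  rw [hasSum_iff_tendsto_nat_of_nonneg fun s => sub_nonneg.2 (h1 (Nat.le_succ _))]
  have h2 := (tendsto_atTop_ciInf h1 ⟨0, by rintro _ ⟨n, rfl⟩; exact h0 n⟩).comp
    (tendsto_add_atTop_nat n)
  refine (h2.const_sub (Q p x n)).congr fun m => ?_
  simpa [add_right_comm _ 1 n] using (sum_range_sub' (fun s => Q p x (s + n)) m).symm

def D (d : ℕ → ℕ) (n : ℕ) : Submodule ℂ C(G d, ℂ) where
  carrier := {g | ∀ x y, (∀ r < n, x r = y r) → g x = g y}
  add_mem' ha hb x y h := by simp [ha x y h, hb x y h]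
  zero_mem' _ _ _ := rfl
  smul_mem' c _ ha x y h := by simp [ha x y h]

lemma fin {d : ℕ → ℕ} {p : ℕ → ℝ} (hp : ∀ r, 0 < p r ∧ p r ≤ 1) {n : ℕ} {g : C(G d, ℂ)}
    (hg : g ∈ D d n) (x : G d) : op p g x = Q p x n * g (V x) +
      ∑ s ∈ range n, ((Q p x s - Q p x (s + 1) : ℝ) : ℂ) * g (T s x) := by
  have h : HasSum (fun s => ((Q p x (s + n) - Q p x (s + n + 1) : ℝ) : ℂ) * g (T (s + n) x))
      (((Q p x n - P p x : ℝ) : ℂ) * g (V x)) := by
    refine ((Complex.hasSum_ofReal.2 (tail hp x n)).mul_right (g (V x))).congr_fun fun s => ?_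
    rw [← coef, ← coef]
    split_ifs with h
    · rw [hg (T (s + n) x) (V x) fun r hr => ?_]
      rw [T, V, if_pos (by omega), if_pos (h.mono (by omega)), h r (by omega), Fin.last_add_one]
    · rfl
  simp only [op, coef]
  rw [((hasSum_nat_add_iff (f := fun s => ((Q p x s - Q p x (s + 1) : ℝ) : ℂ) * g (T s x)) n).1
    h).tsum_eq]
  push_cast
  ring

instance (d : ℕ → ℕ) (n : ℕ) : FiniteDimensional ℂ (D d n) :=
  FiniteDimensional.of_injective (V₂ := (∀ r : Fin n, Fin (d r + 2)) → ℂ)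
    { toFun := fun g y => g.1 fun r => if h : r < n then y ⟨r, h⟩ else 0
      map_add' := fun _ _ => rfl
      map_smul' := fun _ _ => rfl } fun g h e => Subtype.ext (ContinuousMap.ext fun x => by
    have k : ∀ r < n, x r = if _ : r < n then x r else 0 := fun r hr => by rw [dif_pos hr]
    exact (g.2 _ _ k).trans ((congrFun e fun r => x r).trans (h.2 _ _ k).symm))

def pr (d : ℕ → ℕ) (n : ℕ) : C(G d, G d) :=
  ⟨fun x r => if r < n then x r else 0, continuous_pi fun r => by split_ifs <;> fun_prop⟩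

lemma lim {d : ℕ → ℕ} (g : C(G d, ℂ)) : Tendsto (fun n => g.comp (pr d n)) atTop (𝓝 g) := by
  rw [ContinuousMap.tendsto_iff_tendstoUniformly,
    ← tendstoLocallyUniformly_iff_tendstoUniformly_of_compactSpace,
    tendstoLocallyUniformly_iff_forall_tendsto]
  intro x
  refine (((g.continuous.tendsto x).comp tendsto_snd).prodMk_nhds
    ((g.continuous.tendsto x).comp (tendsto_pi_nhds.2 fun r => ?_))).mono_right
      (nhds_le_uniformity _)
  refine (((continuous_apply r).tendsto x).comp tendsto_snd).congr' ?_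
  filter_upwards [tendsto_fst.eventually (eventually_gt_atTop r)] with y hy
  exact (if_pos hy).symm

theorem result (d : ℕ → ℕ) (p : ℕ → ℝ) (hp : ∀ r, 0 < p r ∧ p r ≤ 1)
    (S : C(G d, ℂ) →L[ℂ] C(G d, ℂ)) (hS : ∀ g x, S g x = op p g x) (l : ℂ)
    (hi : Function.Injective fun g => S g - l • g) : DenseRange fun g => S g - l • g := by
  intro g
  refine mem_closure_of_tendsto (lim g) (Eventually.of_forall fun n => ?_)
  have inv : ∀ g ∈ D d n,
      (S.toLinearMap - l • LinearMap.id : C(G d, ℂ) →ₗ[ℂ] C(G d, ℂ)) g ∈ D d n := by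
    refine fun g hg => (D d n).sub_mem (fun x y h => ?_) ((D d n).smul_mem l hg)
    have hF : ∀ s ≤ n, F x s ↔ F y s := fun s hs =>
      forall₂_congr fun r hr => by rw [h r (hr.trans_le hs)]
    have hQ : ∀ s ≤ n, Q p x s = Q p y s := fun s hs =>
      prod_congr rfl fun r hr => by rw [hF r ((mem_range.1 hr).le.trans hs)]
    change S g x = S g y
    rw [hS, hS, fin hp hg, fin hp hg, hQ n le_rfl, hg (V x) (V y) fun r hr => by
      rw [V, V, h r hr]
      exact if_congr (hF r hr.le) rfl rfl]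
    refine congrArg _ (sum_congr rfl fun s hs => ?_)
    rw [hQ s (mem_range.1 hs).le, hQ _ (mem_range.1 hs), hg (T s x) (T s y) fun r hr => by
      rw [T, T, h r hr]]
  obtain ⟨u, hu⟩ := (LinearMap.injective_iff_surjective (f := LinearMap.restrict _ inv)).1
    (fun a b e => Subtype.ext (hi (congrArg Subtype.val e)))
    ⟨g.comp (pr d n), fun x y h => congrArg g (funext fun r => by
      change (if r < n then x r else 0) = if r < n then y r else 0
      split_ifs with hr
      exacts [h r hr, rfl])⟩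
  exact ⟨u, congrArg Subtype.val hu⟩

end Pool.Agent.Results.MP_8907f9_an.NoResidual
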